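import Pool.Agent.H649K.Dim

/-!
A generalized Takagi function all of whose level sets have Hausdorff dimension zero.
-/

set_option autoImplicit false

namespace Pool.Agent.Results.MP_141d59_an.ZeroDimLevelSets

/-- Distance to the nearest integer. -/
noncomputable def phi (x : ℝ) : ℝ := |x - round x|

/-- The dyadic interval `[j / 2 ^ n, (j + 1) / 2 ^ n)`. -/
def dyadic (n j : ℕ) : Set ℝ := Set.Ico ((j : ℝ) / 2 ^ n) ((j + 1) / 2 ^ n)

/-- `omega` is a sequence of sign functions: values `1` or `-1`, and the `n`-th function is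
constant on every dyadic interval `[j / 2 ^ n, (j + 1) / 2 ^ n)`, `j < 2 ^ n`. -/
def IsSignSeq (omega : ℕ → ℝ → ℝ) : Prop :=
  (∀ n x, omega n x = 1 ∨ omega n x = -1) ∧
    ∀ n j, j < 2 ^ n → ∀ x ∈ dyadic n j, ∀ x' ∈ dyadic n j, omega n x = omega n x'

/-- The class of generalized (signed) Takagi functions on `[0, 1]`. -/
def IsSignedTakagi (f : ℝ → ℝ) : Prop :=
  ∃ omega : ℕ → ℝ → ℝ, IsSignSeq omega ∧ ∀ x ∈ Set.Icc (0 : ℝ) 1,
    HasSum (fun n : ℕ => omega n x / 2 ^ n * phi (2 ^ n * x)) (f x)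

/-- The level set of `f` on `[0, 1]` at height `y`. -/
def levelSet (f : ℝ → ℝ) (y : ℝ) : Set ℝ := {x | x ∈ Set.Icc (0 : ℝ) 1 ∧ f x = y}

/-- There is a generalized Takagi function whose level sets all have Hausdorff dimension zero.
Moreover, at each odd level `m`, every level set meets at most `(2 * m + 4) ^ 2` of the dyadic
intervals `[j / 2 ^ m, (j + 1) / 2 ^ m)`, `j < 2 ^ m`. -/
theorem result : ∃ f : ℝ → ℝ, IsSignedTakagi f ∧ (∀ y : ℝ, dimH (levelSet f y) = 0) ∧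
    ∀ (y : ℝ) (m : ℕ), Odd m →
      {j : ℕ | j < 2 ^ m ∧ (dyadic m j ∩ levelSet f y).Nonempty}.encard ≤ ((2 * m + 4) ^ 2 : ℕ) := by
  refine ⟨Pool.Agent.H649K.F, ⟨fun n x => (Pool.Agent.H649K.w n ⌊(2 : ℝ) ^ n * x⌋₊ : ℝ),
    ⟨fun n x => ?_, fun n j _ x hx x' hx' => ?_⟩, fun x _ => ?_⟩, fun y => ?_, fun y m hm => ?_⟩
  · rcases Pool.Agent.H649K.w_pm n ⌊(2 : ℝ) ^ n * x⌋₊ with h | h <;> simp [h]
  · have hfl : ∀ z ∈ dyadic n j, ⌊(2 : ℝ) ^ n * z⌋₊ = j := by
      intro z hz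
      have hz' : z ∈ Pool.Agent.H649K.I n j := hz
      rw [Pool.Agent.H649K.mem_I] at hz'
      rw [Nat.floor_eq_iff (le_trans (Nat.cast_nonneg j) hz'.1)]
      exact hz'
    simp only [hfl x hx, hfl x' hx']
  · exact (Pool.Agent.H649K.summable_term x).hasSum
  · exact Pool.Agent.H649K.dim_zero y
  · classical
    obtain ⟨k, rfl⟩ := hm
    have h := Pool.Agent.H649K.card_J (Pool.Agent.H649K.odd_all k) y
    have hsub : {j : ℕ | j < 2 ^ (2 * k + 1) ∧ (dyadic (2 * k + 1) j ∩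
        levelSet Pool.Agent.H649K.F y).Nonempty} ⊆ (Pool.Agent.H649K.J (2 * k + 1) y : Set ℕ) := by
      rintro j ⟨h1, x, hx, _, hxy⟩
      unfold Pool.Agent.H649K.J
      rw [Finset.mem_coe, Finset.mem_filter, Finset.mem_range]
      exact ⟨h1, x, hx, hxy⟩
    refine (Set.encard_le_encard hsub).trans ?_
    rw [Set.encard_coe_eq_coe_finsetCard]
    exact_mod_cast h

end Pool.Agent.Results.MP_141d59_an.ZeroDimLevelSets
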